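import Mathlib
import Pool.Agent.Helper531.ES.LKS6

set_option autoImplicit false

namespace Pool.Agent.Results.MP_f23545_co.ManyLeaves

/-- The Komlós–Sós conjecture for every tree one of whose two colour classes (the vertices of
colour `true`) has at most `ℓ + 1` vertices, where `ℓ` is the number of leaves. -/
theorem result :
    ∀ (V : Type) [Fintype V] [DecidableEq V] [Nonempty V]
      (G : SimpleGraph V) [DecidableRel G.Adj] (k : ℕ)
      (W : Type) [Fintype W] [DecidableEq W] (T : SimpleGraph W) [DecidableRel T.Adj]
      (c : W → Bool),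
      T.IsTree → Fintype.card W = k + 1 →
      (∀ a b : W, T.Adj a b → c a ≠ c b) →
      (Finset.univ.filter (fun w : W => c w = true)).card ≤
        (Finset.univ.filter (fun w : W => T.degree w = 1)).card + 1 →
      Fintype.card V ≤ 2 * (Finset.univ.filter (fun v : V => k ≤ G.degree v)).card →
      ∃ f : W → V, Function.Injective f ∧ ∀ a b : W, T.Adj a b → G.Adj (f a) (f b) := by
  intro V _ _ _ G _ k W _ _ T _ c hT hW hc hX hV
  exact Helper531.LKS.lks_main G T hT k k hW le_rfl c hc (by omega) hV

end Pool.Agent.Results.MP_f23545_co.ManyLeaves
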